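import Mathlib

/-!
# MP_c0ff68_co : the gap factor between Avoider-Forcer and Maker-Breaker games is at most 2
-/

namespace Pool.Agent.Results.MP_c0ff68_co.AtMostTwo

variable {V : Type} [Fintype V] [DecidableEq V]

/-- Avoider-Forcer game on the winning sets `F`: Forcer (second argument list: `k` elements are
still to be claimed, `t = true` iff Avoider is to move, `A` = Avoider's elements, `B` = Forcer's
elements) can force Avoider to own a whole winning set when the board is exhausted. -/
def ForcerWins (F : Finset (Finset V)) : ℕ → Bool → Finset V → Finset V → Prop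
  | 0, _, A, _ => ∃ W ∈ F, W ⊆ A
  | k + 1, true, A, B => ∀ v : V, v ∉ A → v ∉ B → ForcerWins F k false (insert v A) B
  | k + 1, false, A, B => ∃ v : V, v ∉ A ∧ v ∉ B ∧ ForcerWins F k true A (insert v B)

/-- Maker-Breaker game on `F`: Breaker can ensure `|M ∩ W| ≤ |W| / c` for every winning set `W`
when the board is exhausted (`t = true` iff Maker is to move). -/
def BreakerHolds (F : Finset (Finset V)) (c : ℝ) : ℕ → Bool → Finset V → Finset V → Prop
  | 0, _, M, _ => ∀ W ∈ F, ((M ∩ W).card : ℝ) ≤ (W.card : ℝ) / c
  | k + 1, true, M, B => ∀ v : V, v ∉ M → v ∉ B → BreakerHolds F c k false (insert v M) B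
  | k + 1, false, M, B => ∃ v : V, v ∉ M ∧ v ∉ B ∧ BreakerHolds F c k true M (insert v B)

/-- The finite hypergraph `F` on the board `V` has gap factor at least `c`. -/
def GapFactorAtLeast (F : Finset (Finset V)) (c : ℝ) : Prop :=
  (∀ W ∈ F, W.Nonempty) ∧ 1 ≤ c ∧
    (∀ first : Bool, ForcerWins F (Fintype.card V) first ∅ ∅) ∧
    (∀ first : Bool, BreakerHolds F c (Fintype.card V) first ∅ ∅)

lemma exists_free {k : ℕ} {A B : Finset V} (hk : A.card + B.card + (k + 1) = Fintype.card V) :
    ∃ v : V, v ∉ A ∧ v ∉ B := by
  by_contra h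
  push Not at h
  have : (Finset.univ : Finset V) ⊆ A ∪ B := by
    intro v _
    rw [Finset.mem_union]
    by_cases hv : v ∈ A
    · exact Or.inl hv
    · exact Or.inr (h v hv)
  have h1 := Finset.card_le_card this
  have h2 := Finset.card_union_le A B
  rw [Finset.card_univ] at h1
  omega

lemma nonempty_of_forcer (F : Finset (Finset V)) : ∀ (k : ℕ) (t : Bool) (A B : Finset V),
    A.card + B.card + k = Fintype.card V → ForcerWins F k t A B → ∃ W, W ∈ F := by
  intro k
  induction k with
  | zero =>
    intro t A B _ h
    unfold ForcerWins at h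
    obtain ⟨W, hW, -⟩ := h
    exact ⟨W, hW⟩
  | succ k ih =>
    intro t A B hk h
    cases t with
    | true =>
      unfold ForcerWins at h
      obtain ⟨v, hA, hB⟩ := exists_free hk
      refine ih false (insert v A) B ?_ (h v hA hB)
      rw [Finset.card_insert_of_notMem hA]
      omega
    | false =>
      unfold ForcerWins at h
      obtain ⟨v, hA, hB, h⟩ := h
      refine ih true A (insert v B) ?_ h
      rw [Finset.card_insert_of_notMem hB]
      omega

/-- Maker's strategy: always take an element of the fixed set `W`. -/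
lemma maker_half (F : Finset (Finset V)) (c : ℝ) (W : Finset V) (hW : W ∈ F) :
    ∀ (k : ℕ) (t : Bool) (M B : Finset V), M.card + B.card + k = Fintype.card V →
      Disjoint M B → BreakerHolds F c k t M B →
      (((M ∩ W).card + ((W \ (M ∪ B)).card + (if t then 1 else 0)) / 2 : ℕ) : ℝ)
        ≤ (W.card : ℝ) / c := by
  intro k
  induction k with
  | zero =>
    intro t M B hk hd h
    unfold BreakerHolds at h
    have hu : M ∪ B = Finset.univ := by
      rw [← Finset.card_eq_iff_eq_univ, Finset.card_union_of_disjoint hd]
      omega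
    have h0 : (W \ (M ∪ B)).card = 0 := by
      rw [hu]; simp
    rw [h0]
    have : (0 + (if t then 1 else 0)) / 2 = 0 := by cases t <;> rfl
    rw [this]
    simpa using h W hW
  | succ k ih =>
    intro t M B hk hd h
    cases t with
    | true =>
      unfold BreakerHolds at h
      by_cases hf : (W \ (M ∪ B)).Nonempty
      · obtain ⟨v, hv⟩ := hf
        have hv' := hv
        rw [Finset.mem_sdiff, Finset.mem_union, not_or] at hv'
        obtain ⟨hvW, hvM, hvB⟩ := hv'
        have h1 := ih false (insert v M) B (by
          rw [Finset.card_insert_of_notMem hvM]; omega)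
          (by rw [Finset.disjoint_insert_left]; exact ⟨hvB, hd⟩) (h v hvM hvB)
        refine le_trans ?_ h1
        have e1 : (insert v M ∩ W).card = (M ∩ W).card + 1 := by
          rw [Finset.insert_inter_of_mem hvW, Finset.card_insert_of_notMem]
          simp [hvM]
        have e2 : W \ (insert v M ∪ B) = (W \ (M ∪ B)).erase v := by
          ext x
          simp only [Finset.mem_sdiff, Finset.mem_union, Finset.mem_insert, Finset.mem_erase]
          tauto
        have e3 : ((W \ (M ∪ B)).erase v).card = (W \ (M ∪ B)).card - 1 :=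
          Finset.card_erase_of_mem hv
        have e4 : 0 < (W \ (M ∪ B)).card := Finset.card_pos.mpr ⟨v, hv⟩
        rw [e1, e2, e3]
        simp only [if_true, Bool.false_eq_true, if_false]
        exact_mod_cast (by omega : (M ∩ W).card + ((W \ (M ∪ B)).card + 1) / 2
          ≤ (M ∩ W).card + 1 + ((W \ (M ∪ B)).card - 1 + 0) / 2)
      · rw [Finset.not_nonempty_iff_eq_empty] at hf
        obtain ⟨v, hvM, hvB⟩ := exists_free hk
        have h1 := ih false (insert v M) B (by
          rw [Finset.card_insert_of_notMem hvM]; omega)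
          (by rw [Finset.disjoint_insert_left]; exact ⟨hvB, hd⟩) (h v hvM hvB)
        refine le_trans ?_ h1
        have e1 : (M ∩ W).card ≤ (insert v M ∩ W).card :=
          Finset.card_le_card (Finset.inter_subset_inter_right (Finset.subset_insert _ _))
        rw [hf]
        simp only [Finset.card_empty, if_true]
        exact_mod_cast (by omega : (M ∩ W).card + (0 + 1) / 2
          ≤ (insert v M ∩ W).card + ((W \ (insert v M ∪ B)).card + (if false = true then 1 else 0)) / 2)
    | false =>
      unfold BreakerHolds at h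
      obtain ⟨v, hvM, hvB, h⟩ := h
      have h1 := ih true M (insert v B) (by
          rw [Finset.card_insert_of_notMem hvB]; omega)
          (by rw [Finset.disjoint_insert_right]; exact ⟨hvM, hd⟩) h
      refine le_trans ?_ h1
      have e2 : (W \ (M ∪ B)).card ≤ (W \ (M ∪ insert v B)).card + 1 := by
        have : W \ (M ∪ B) ⊆ insert v (W \ (M ∪ insert v B)) := by
          intro x
          simp only [Finset.mem_sdiff, Finset.mem_union, Finset.mem_insert]
          tauto
        exact (Finset.card_le_card this).trans (Finset.card_insert_le _ _)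
      simp only [if_true, Bool.false_eq_true, if_false]
      exact_mod_cast (by omega : (M ∩ W).card + ((W \ (M ∪ B)).card + 0) / 2
          ≤ (M ∩ W).card + ((W \ (M ∪ insert v B)).card + 1) / 2)

lemma le_two {F : Finset (Finset V)} {c : ℝ} (h : GapFactorAtLeast F c) : c ≤ 2 := by
  obtain ⟨hne, hc, hF, hB⟩ := h
  obtain ⟨W, hW⟩ := nonempty_of_forcer F _ true ∅ ∅ (by simp) (hF true)
  have h1 := maker_half F c W hW _ true ∅ ∅ (by simp) (by simp) (hB true)
  have hWpos : 0 < W.card := Finset.card_pos.mpr (hne W hW)
  simp only [Finset.empty_inter, Finset.card_empty, Finset.empty_union, Finset.sdiff_empty,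
    if_true, zero_add] at h1
  have hcpos : 0 < c := by linarith
  rw [le_div_iff₀ hcpos] at h1
  have h2 : (W.card : ℝ) ≤ 2 * (((W.card + 1) / 2 : ℕ) : ℝ) := by
    exact_mod_cast (by omega : W.card ≤ 2 * ((W.card + 1) / 2))
  have h3 : (0 : ℝ) < (((W.card + 1) / 2 : ℕ) : ℝ) := by
    exact_mod_cast (by omega : 0 < (W.card + 1) / 2)
  by_contra hlt
  push Not at hlt
  nlinarith

/-- `c*`: the supremum of all gap factors over finite hypergraphs (on boards `Fin n`). -/
noncomputable def cStar : ℝ :=
  sSup {c : ℝ | ∃ (n : ℕ) (F : Finset (Finset (Fin n))), GapFactorAtLeast F c}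

theorem result :
    (∀ (V : Type) [Fintype V] [DecidableEq V] (F : Finset (Finset V)) (c : ℝ),
      GapFactorAtLeast F c → c ≤ 2) ∧
    BddAbove {c : ℝ | ∃ (n : ℕ) (F : Finset (Finset (Fin n))), GapFactorAtLeast F c} ∧
    cStar ≤ 2 ∧
    (¬ ∃ (n : ℕ) (F : Finset (Finset (Fin n))), GapFactorAtLeast F 100) := by
  refine ⟨fun V _ _ F c h => le_two h, ⟨2, ?_⟩, ?_, ?_⟩
  · rintro c ⟨n, F, h⟩
    exact le_two h
  · refine Real.sSup_le ?_ (by norm_num)
    rintro c ⟨n, F, h⟩
    exact le_two h
  · rintro ⟨n, F, h⟩
    have := le_two h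
    norm_num at this

end Pool.Agent.Results.MP_c0ff68_co.AtMostTwo
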